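import Mathlib

/-!
# Path following colourings for blow-ups of odd cycles (core combinatorics)

We work with maps `F : ℕ → Fin m → Fin n`: `F x` is the restriction of a map to the `x`-th block.
-/

namespace Pool.Agent.J6H19.OddBlowup

/-! ## Walks along slots -/

/-- Nodes reachable from `z`: a node `w` whose slot `j w` is the inner slot `e` is followed by the
node `u e`. -/
inductive Walk {N S E : Type*} (j : N → S ⊕ E) (u : E → N) (z : N) : N → Prop
  | refl : Walk j u z z
  | step {w : N} {e : E} : Walk j u z w → j w = Sum.inr e → Walk j u z (u e)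

theorem exists_exit {N S E : Type*} [Finite N] (j : N → S ⊕ E) (hj : Function.Injective j)
    (u : E → N) (hu : Function.Injective u) (z : N) (hz : ∀ e, u e ≠ z) :
    ∃ w p, Walk j u z w ∧ j w = Sum.inl p := by
  by_contra hcon
  push Not at hcon
  have hinr : ∀ w : {w // Walk j u z w}, ∃ e, j w.1 = Sum.inr e := by
    intro w
    rcases h : j w.1 with p | e
    · exact absurd h (hcon w.1 p w.2)
    · exact ⟨e, rfl⟩
  choose e he using hinr
  let φ : {w // Walk j u z w} → {w // Walk j u z w} :=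
    fun w => ⟨u (e w), Walk.step w.2 (he w)⟩
  have hφ : Function.Injective φ := by
    intro w w' h
    have h1 : u (e w) = u (e w') := congrArg Subtype.val h
    have h2 : e w = e w' := hu h1
    have h3 : j w.1 = j w'.1 := by rw [he w, he w', h2]
    exact Subtype.ext (hj h3)
  have hsurj : Function.Surjective φ := Finite.surjective_of_injective hφ
  obtain ⟨w, hw⟩ := hsurj ⟨z, Walk.refl⟩
  exact hz (e w) (congrArg Subtype.val hw)

theorem walk_unique {N S E : Type*} (j : N → S ⊕ E) (hj : Function.Injective j)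
    (u v : E → N) (huv : ∀ e e', u e = v e' → e = e') (z y : N)
    (hzv : ∀ e, v e ≠ z) (hyu : ∀ e, u e ≠ y) (hzy : z ≠ y) {w : N}
    (h1 : Walk j u z w) (h2 : Walk j v y w) : False := by
  induction h1 with
  | refl =>
    cases h2 with
    | refl => exact hzy rfl
    | step _ _ => exact hzv _ rfl
  | @step w0 e hw0 he ih =>
    generalize hx : u e = x at h2
    cases h2 with
    | refl => exact hyu e hx
    | @step w1 e' hw1 he' =>
      have h3 : e = e' := huv _ _ hx
      subst h3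
      have h4 : w0 = w1 := hj (he.trans he'.symm)
      subst h4
      exact ih hw1

/-! ## Slots -/

theorem exists_slots (m n a b : ℕ) (ha : a ≤ m) (hb : b ≤ m) (h : n ≤ 2 * m - a + b) :
    ∃ j : Fin n → {p : Fin m ⊕ Fin m // ∀ i, p = Sum.inl i → a ≤ i.val} ⊕ {i : Fin m // i.val < b},
      Function.Injective j := by
  refine ⟨fun z =>
    if h1 : z.val < m - a then
      Sum.inl ⟨Sum.inl ⟨z.val + a, by omega⟩, by
        intro i hi
        have := Sum.inl.inj hi
        rw [← this]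
        simp⟩
    else if h2 : z.val - (m - a) < m then
      Sum.inl ⟨Sum.inr ⟨z.val - (m - a), h2⟩, by intro i hi; cases hi⟩
    else
      Sum.inr ⟨⟨z.val - (2 * m - a), by have := z.isLt; omega⟩, by
        have := z.isLt
        simp only
        omega⟩, ?_⟩
  intro z y hzy
  have hz := z.isLt
  have hy := y.isLt
  apply Fin.ext
  simp only at hzy
  split_ifs at hzy with h1 h2 h3 h4 h5 h6
  all_goals
    first
    | (have h7 := Sum.inl.inj (Subtype.ext_iff.mp (Sum.inl.inj hzy))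
       have h8 := Fin.ext_iff.mp h7
       simp only at h8
       omega)
    | (have h7 := Sum.inr.inj (Subtype.ext_iff.mp (Sum.inl.inj hzy))
       have h8 := Fin.ext_iff.mp h7
       simp only at h8
       omega)
    | (have h7 := Subtype.ext_iff.mp (Sum.inr.inj hzy)
       have h8 := Fin.ext_iff.mp h7
       simp only at h8
       omega)
    | (have h7 := Subtype.ext_iff.mp (Sum.inl.inj hzy)
       cases h7)

/-! ## Maps on the blocks -/

variable {m n : ℕ}

/-- `F` and `G` are adjacent in the exponential graph, written block by block. -/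
def Nb (F G : ℕ → Fin m → Fin n) : Prop :=
  (∀ x i j, F x i ≠ G (x + 1) j) ∧ (∀ x i j, F (x + 1) i ≠ G x j) ∧
    ∀ x i j, i ≠ j → F x i ≠ G x j

theorem Nb.symm {F G : ℕ → Fin m → Fin n} (h : Nb F G) : Nb G F :=
  ⟨fun x i j => (h.2.1 x j i).symm, fun x i j => (h.1 x j i).symm,
    fun x i j hij => (h.2.2 x j i hij.symm).symm⟩

/-- `F` is injective on the clique formed by the blocks `x` and `x + 1`. -/
def Inj2 (F : ℕ → Fin m → Fin n) (x : ℕ) : Prop :=
  Function.Injective (F x) ∧ Function.Injective (F (x + 1)) ∧ ∀ i j, F x i ≠ F (x + 1) j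

/-- `F` is injective on the first `t` cliques. -/
def Good (t : ℕ) (F : ℕ → Fin m → Fin n) : Prop := ∀ x < t, Inj2 F x

/-- The maps handled at level `t`. -/
def Dom (D t : ℕ) (F : ℕ → Fin m → Fin n) : Prop :=
  Good t F ∧ (∀ i j, F t i ≠ F (t + 1) j) ∧ ¬ Good D F

/-- A colouring of the maps handled at level `t`, with a forbidden set of positions of size
`t * s` in block `t`. -/
def P (m n D s t : ℕ) : Prop :=
  ∃ c : (ℕ → Fin m → Fin n) → Fin n, ∀ F, Dom D t F →
    ((∃ i, c F = F t i) ∨ ∃ i, c F = F (t + 1) i) ∧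
    (∀ i : Fin m, i.val < t * s → c F ≠ F t i) ∧
    ∀ G, Dom D t G → Nb F G → c F ≠ c G ∧ ∀ i : Fin m, i.val < t * s → c F ≠ G t i

/-- The colour `c` of `F` does not occur on blocks `t`, `t + 1` of any neighbour. -/
def Kill (F : ℕ → Fin m → Fin n) (c : Fin n) (t : ℕ) : Prop :=
  ∀ G, Nb F G → (∀ k, G t k ≠ c) ∧ ∀ k, G (t + 1) k ≠ c

theorem kill_rep {F : ℕ → Fin m → Fin n} {c : Fin n} {t : ℕ} {i i' : Fin m} (hii : i ≠ i')
    (h1 : F t i = c) (h2 : F t i' = c) : Kill F c t := by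
  intro G hG
  refine ⟨fun k hk => ?_, fun k hk => hG.1 t i k (h1.trans hk.symm)⟩
  by_cases hki : k = i
  · have : i' ≠ k := by rw [hki]; exact hii.symm
    exact hG.2.2 t i' k this (h2.trans hk.symm)
  · exact hG.2.2 t i k (Ne.symm hki) (h1.trans hk.symm)

theorem kill_rep' {F : ℕ → Fin m → Fin n} {c : Fin n} {t : ℕ} {i i' : Fin m} (hii : i ≠ i')
    (h1 : F (t + 1) i = c) (h2 : F (t + 1) i' = c) : Kill F c t := by
  intro G hG
  refine ⟨fun k hk => hG.2.1 t i k (h1.trans hk.symm), fun k hk => ?_⟩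
  by_cases hki : k = i
  · have : i' ≠ k := by rw [hki]; exact hii.symm
    exact hG.2.2 (t + 1) i' k this (h2.trans hk.symm)
  · exact hG.2.2 (t + 1) i k (Ne.symm hki) (h1.trans hk.symm)

theorem kill_pair {F : ℕ → Fin m → Fin n} {c : Fin n} {t : ℕ} {i j : Fin m}
    (h1 : F t i = c) (h2 : F (t + 1) j = c) : Kill F c t := by
  intro G hG
  exact ⟨fun k hk => hG.2.1 t j k (h2.trans hk.symm), fun k hk => hG.1 t i k (h1.trans hk.symm)⟩

theorem kill_pair' {F : ℕ → Fin m → Fin n} {c : Fin n} {t : ℕ} {i j : Fin m}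
    (h1 : F (t + 1) i = c) (h2 : F (t + 1 + 1) j = c) : Kill F c t := by
  intro G hG
  exact ⟨fun k hk => hG.2.1 t i k (h1.trans hk.symm),
    fun k hk => hG.2.1 (t + 1) j k (h2.trans hk.symm)⟩

theorem good_inj {t : ℕ} {F : ℕ → Fin m → Fin n} (h : Good t F) (ht : t ≠ 0) :
    Function.Injective (F t) := by
  obtain ⟨k, rfl⟩ := Nat.exists_eq_succ_of_ne_zero ht
  exact (h k (Nat.lt_succ_self k)).2.1

theorem not_inj {F : Fin m → Fin n} (h : ¬ Function.Injective F) :
    ∃ i i', i ≠ i' ∧ F i = F i' := by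
  unfold Function.Injective at h
  push Not at h
  obtain ⟨i, i', h1, h2⟩ := h
  exact ⟨i, i', h2, h1⟩

/-- The base level. -/
theorem P_base (m n s t : ℕ) [NeZero n] : P m n (t + 1) s t := by
  classical
  have hex : ∀ F : ℕ → Fin m → Fin n, Dom (t + 1) t F → ∃ c,
      ((∃ i i', i ≠ i' ∧ F t i = c ∧ F t i' = c ∧ t = 0) ∨
        ∃ i i', i ≠ i' ∧ F (t + 1) i = c ∧ F (t + 1) i' = c) := by
    intro F hF
    by_cases h1 : Function.Injective (F t)
    · by_cases h2 : Function.Injective (F (t + 1))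
      · exfalso
        apply hF.2.2
        intro x hx
        rcases Nat.lt_succ_iff_lt_or_eq.mp hx with h | h
        · exact hF.1 x h
        · subst h
          exact ⟨h1, h2, hF.2.1⟩
      · obtain ⟨i, i', hii, h3⟩ := not_inj h2
        exact ⟨_, Or.inr ⟨i, i', hii, rfl, h3.symm⟩⟩
    · obtain ⟨i, i', hii, h3⟩ := not_inj h1
      have ht : t = 0 := by
        by_contra ht
        exact h1 (good_inj hF.1 ht)
      exact ⟨_, Or.inl ⟨i, i', hii, rfl, h3.symm, ht⟩⟩
  let c : (ℕ → Fin m → Fin n) → Fin n := fun F =>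
    if h : Dom (t + 1) t F then (hex F h).choose else 0
  have hc : ∀ F, Dom (t + 1) t F →
      ((∃ i i', i ≠ i' ∧ F t i = c F ∧ F t i' = c F ∧ t = 0) ∨
        ∃ i i', i ≠ i' ∧ F (t + 1) i = c F ∧ F (t + 1) i' = c F) := by
    intro F hF
    have := (hex F hF).choose_spec
    simp only [c, dif_pos hF]
    exact this
  have hmem : ∀ F, Dom (t + 1) t F → ((∃ i, c F = F t i) ∨ ∃ i, c F = F (t + 1) i) := by
    intro F hF
    rcases hc F hF with ⟨i, i', _, h1, _, _⟩ | ⟨i, i', _, h1, _⟩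
    · exact Or.inl ⟨i, h1.symm⟩
    · exact Or.inr ⟨i, h1.symm⟩
  have hkill : ∀ F, Dom (t + 1) t F → Kill F (c F) t := by
    intro F hF
    rcases hc F hF with ⟨i, i', hii, h1, h2, _⟩ | ⟨i, i', hii, h1, h2⟩
    · exact kill_rep hii h1 h2
    · exact kill_rep' hii h1 h2
  refine ⟨c, fun F hF => ⟨hmem F hF, ?_, ?_⟩⟩
  · intro i hi
    rcases hc F hF with ⟨k, k', _, _, _, ht⟩ | ⟨k, k', _, h1, _⟩
    · subst ht
      simp at hi
    · rw [← h1]
      exact (hF.2.1 i k).symm
  · intro G hG hFG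
    refine ⟨?_, fun i _ h => (hkill F hF G hFG).1 i h.symm⟩
    intro h
    rcases hmem G hG with ⟨i, hi⟩ | ⟨i, hi⟩
    · exact (hkill F hF G hFG).1 i (hi.symm.trans h.symm)
    · exact (hkill F hF G hFG).2 i (hi.symm.trans h.symm)

/-- The step from level `t + 1` to level `t`. -/
theorem P_step (m n D s t : ℕ) [NeZero n] (hm : (t + 1) * s ≤ m) (hn : n ≤ 2 * m + s)
    (hP : P m n D s (t + 1)) : P m n D s t := by
  classical
  obtain ⟨c', hc'⟩ := hP
  have hts : t * s ≤ m := le_trans (Nat.mul_le_mul_right s (Nat.le_succ t)) hm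
  have hsum : n ≤ 2 * m - t * s + (t + 1) * s := by
    have h1 : (t + 1) * s = t * s + s := by ring
    rw [h1]
    omega
  obtain ⟨j, hj⟩ := exists_slots m n (t * s) ((t + 1) * s) hts hm hsum
  let Spec : (ℕ → Fin m → Fin n) → Fin n → Prop := fun F c =>
    (∃ i i', i ≠ i' ∧ F t i = c ∧ F t i' = c ∧ t = 0) ∨
    (∃ i i', i ≠ i' ∧ F (t + 1) i = c ∧ F (t + 1) i' = c) ∨
    (∃ i k, F (t + 1) i = c ∧ F (t + 1 + 1) k = c) ∨
    (Inj2 F t ∧ Dom D (t + 1) F ∧ ∃ w p,
      Walk j (fun e : {i : Fin m // i.val < (t + 1) * s} => F (t + 1) e.1) (c' F) w ∧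
        j w = Sum.inl p ∧ c = Sum.elim (F t) (F (t + 1)) p.1)
  have hex : ∀ F : ℕ → Fin m → Fin n, Dom D t F → ∃ c, Spec F c := by
    intro F hF
    by_cases h1 : Function.Injective (F t)
    · by_cases h2 : Function.Injective (F (t + 1))
      · by_cases h3 : ∃ i k, F (t + 1) i = F (t + 1 + 1) k
        · obtain ⟨i, k, hik⟩ := h3
          exact ⟨_, Or.inr (Or.inr (Or.inl ⟨i, k, rfl, hik.symm⟩))⟩
        · push Not at h3
          have hI : Inj2 F t := ⟨h1, h2, hF.2.1⟩
          have hD : Dom D (t + 1) F := by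
            refine ⟨?_, h3, hF.2.2⟩
            intro x hx
            rcases Nat.lt_succ_iff_lt_or_eq.mp hx with h | h
            · exact hF.1 x h
            · subst h
              exact hI
          obtain ⟨w, p, hw, hp⟩ := exists_exit j hj
            (fun e : {i : Fin m // i.val < (t + 1) * s} => F (t + 1) e.1)
            (fun e e' h => Subtype.ext (h2 h)) (c' F)
            (fun e h => (hc' F hD).2.1 e.1 e.2 h.symm)
          exact ⟨_, Or.inr (Or.inr (Or.inr ⟨hI, hD, w, p, hw, hp, rfl⟩))⟩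
      · obtain ⟨i, i', hii, h3⟩ := not_inj h2
        exact ⟨_, Or.inr (Or.inl ⟨i, i', hii, rfl, h3.symm⟩)⟩
    · obtain ⟨i, i', hii, h3⟩ := not_inj h1
      have ht : t = 0 := by
        by_contra ht
        exact h1 (good_inj hF.1 ht)
      exact ⟨_, Or.inl ⟨i, i', hii, rfl, h3.symm, ht⟩⟩
  let c : (ℕ → Fin m → Fin n) → Fin n := fun F =>
    if h : Dom D t F then (hex F h).choose else 0
  have hc : ∀ F, Dom D t F → Spec F (c F) := by
    intro F hF
    have := (hex F hF).choose_spec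
    simp only [c, dif_pos hF]
    exact this
  have hmem : ∀ F, Dom D t F → ((∃ i, c F = F t i) ∨ ∃ i, c F = F (t + 1) i) := by
    intro F hF
    rcases hc F hF with ⟨i, i', _, h1, _, _⟩ | ⟨i, i', _, h1, _⟩ | ⟨i, k, h1, _⟩ |
      ⟨_, _, w, p, _, _, hp⟩
    · exact Or.inl ⟨i, h1.symm⟩
    · exact Or.inr ⟨i, h1.symm⟩
    · exact Or.inr ⟨i, h1.symm⟩
    · obtain ⟨p, hp'⟩ := p
      rcases p with i | i
      · exact Or.inl ⟨i, hp⟩
      · exact Or.inr ⟨i, hp⟩
  have hself : ∀ F, Dom D t F → ∀ i : Fin m, i.val < t * s → c F ≠ F t i := by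
    intro F hF i hi
    rcases hc F hF with ⟨k, k', _, _, _, ht⟩ | ⟨k, k', _, h1, _⟩ | ⟨k, k', h1, _⟩ |
      ⟨hI, _, w, p, _, _, hp⟩
    · subst ht
      simp at hi
    · rw [← h1]
      exact (hF.2.1 i k).symm
    · rw [← h1]
      exact (hF.2.1 i k).symm
    · obtain ⟨p, hp'⟩ := p
      rcases p with k | k
      · intro h
        have h1 : F t k = F t i := hp.symm.trans h
        have h2 : k = i := hI.1 h1
        have h3 := hp' k rfl
        rw [h2] at h3
        omega
      · intro h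
        have h1 : F (t + 1) k = F t i := hp.symm.trans h
        exact hF.2.1 i k h1.symm
  have hcase : ∀ F, Dom D t F → Kill F (c F) t ∨
      (Inj2 F t ∧ Dom D (t + 1) F ∧ ∃ w p,
      Walk j (fun e : {i : Fin m // i.val < (t + 1) * s} => F (t + 1) e.1) (c' F) w ∧
        j w = Sum.inl p ∧ c F = Sum.elim (F t) (F (t + 1)) p.1) := by
    intro F hF
    rcases hc F hF with ⟨i, i', hii, h1, h2, _⟩ | ⟨i, i', hii, h1, h2⟩ | ⟨i, k, h1, h2⟩ | h
    · exact Or.inl (kill_rep hii h1 h2)
    · exact Or.inl (kill_rep' hii h1 h2)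
    · exact Or.inl (kill_pair' h1 h2)
    · exact Or.inr h
  refine ⟨c, fun F hF => ⟨hmem F hF, hself F hF, ?_⟩⟩
  intro G hG hFG
  rcases hcase F hF with hK | ⟨hI, hD, w, p, hw, hjw, hp⟩
  · refine ⟨?_, fun i _ h => (hK G hFG).1 i h.symm⟩
    intro h
    rcases hmem G hG with ⟨i, hi⟩ | ⟨i, hi⟩
    · exact (hK G hFG).1 i (hi.symm.trans h.symm)
    · exact (hK G hFG).2 i (hi.symm.trans h.symm)
  · refine ⟨?_, ?_⟩
    · intro h
      rcases hcase G hG with hK | ⟨hI', hD', w', p', hw', hjw', hp'⟩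
      · rcases hmem F hF with ⟨i, hi⟩ | ⟨i, hi⟩
        · exact (hK F hFG.symm).1 i (hi.symm.trans h)
        · exact (hK F hFG.symm).2 i (hi.symm.trans h)
      · have hpp : p = p' := by
          have h1 : Sum.elim (F t) (F (t + 1)) p.1 = Sum.elim (G t) (G (t + 1)) p'.1 :=
            hp.symm.trans (h.trans hp')
          apply Subtype.ext
          obtain ⟨p, _⟩ := p
          obtain ⟨p', _⟩ := p'
          rcases p with k | k <;> rcases p' with k' | k'
          · by_contra hne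
            exact hFG.2.2 t k k' (fun hkk => hne (congrArg Sum.inl hkk)) h1
          · exact absurd h1 (hFG.1 t k k')
          · exact absurd h1 (hFG.2.1 t k k')
          · by_contra hne
            exact hFG.2.2 (t + 1) k k' (fun hkk => hne (congrArg Sum.inr hkk)) h1
        have hww : w = w' := hj (by rw [hjw, hjw', hpp])
        subst hww
        refine walk_unique j hj _ _ ?_ (c' F) (c' G) ?_ ?_ ?_ hw hw'
        · intro e e' h1
          by_contra hne
          exact hFG.2.2 (t + 1) e.1 e'.1 (fun h2 => hne (Subtype.ext h2)) h1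
        · intro e h1
          exact ((hc' F hD).2.2 G hD' hFG).2 e.1 e.2 h1.symm
        · intro e h1
          exact ((hc' G hD').2.2 F hD hFG.symm).2 e.1 e.2 h1.symm
        · exact ((hc' F hD).2.2 G hD' hFG).1
    · intro i hi h
      obtain ⟨p, hp'⟩ := p
      rcases p with k | k
      · have h1 : F t k = G t i := hp.symm.trans h
        have h3 := hp' k rfl
        refine hFG.2.2 t k i (fun h2 => ?_) h1
        rw [h2] at h3
        omega
      · have h1 : F (t + 1) k = G t i := hp.symm.trans h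
        exact hFG.2.1 t k i h1

/-- The colouring of the maps handled at level `0`. -/
theorem P_zero (m n D s : ℕ) [NeZero n] (hm : D * s ≤ m) (hn : n ≤ 2 * m + s) :
    P m n (D + 1) s 0 := by
  have key : ∀ k, k ≤ D → P m n (D + 1) s (D - k) := by
    intro k
    induction k with
    | zero => intro _; exact P_base m n s D
    | succ k ih =>
      intro hk
      have h1 : D - k = D - (k + 1) + 1 := by omega
      have h2 := ih (by omega)
      rw [h1] at h2
      refine P_step m n (D + 1) s (D - (k + 1)) ?_ hn h2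
      refine le_trans (Nat.mul_le_mul_right s ?_) hm
      omega
  have := key D le_rfl
  simpa using this

/-- The final colouring of all maps on the blow-up of a cycle with `D + 2` blocks. -/
theorem exists_colouring (m n D s : ℕ) [NeZero n] (hm : D * s ≤ m) (hn : n ≤ 2 * m + s)
    (A : Set (ℕ → Fin m → Fin n)) (hper : ∀ F ∈ A, F (D + 2) = F 0)
    (himp : ∀ F ∈ A, Good (D + 1) F → ∃ i j, F (D + 1) i = F (D + 2) j) :
    ∃ c : (ℕ → Fin m → Fin n) → Fin n, ∀ F ∈ A, ∀ G ∈ A, Nb F G → c F ≠ c G := by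
  classical
  obtain ⟨c₀, hc₀⟩ := P_zero m n D s hm hn
  have hex : ∀ F ∈ A, ∃ c, ((∀ G ∈ A, Nb F G → (∀ k, G 0 k ≠ c) ∧ ∀ k, G 1 k ≠ c) ∧
      ((∃ i, c = F 0 i) ∨ ∃ i, c = F 1 i)) ∨ (Dom (D + 1) 0 F ∧ c = c₀ F) := by
    intro F hF
    by_cases h1 : ∃ i j, F 0 i = F 1 j
    · obtain ⟨i, j, hij⟩ := h1
      exact ⟨F 0 i, Or.inl ⟨fun G _ hFG => kill_pair (t := 0) rfl hij.symm G hFG,
        Or.inl ⟨i, rfl⟩⟩⟩
    · by_cases h2 : Good (D + 1) F
      · obtain ⟨i, j, hij⟩ := himp F hF h2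
        refine ⟨F 0 j, Or.inl ⟨?_, Or.inl ⟨j, rfl⟩⟩⟩
        rw [hper F hF] at hij
        intro G hGA hG
        refine ⟨fun k hk => ?_, fun k hk => ?_⟩
        · have h3 := hG.1 (D + 1) i k
          rw [show D + 1 + 1 = D + 2 from rfl, hper G hGA] at h3
          exact h3 (hij.trans hk.symm)
        · exact hG.1 0 j k hk.symm
      · push Not at h1
        exact ⟨c₀ F, Or.inr ⟨⟨fun x hx => absurd hx (Nat.not_lt_zero x), h1, h2⟩, rfl⟩⟩
  let c : (ℕ → Fin m → Fin n) → Fin n := fun F =>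
    if h : F ∈ A then (hex F h).choose else 0
  have hc : ∀ F ∈ A, ((∀ G ∈ A, Nb F G → (∀ k, G 0 k ≠ c F) ∧ ∀ k, G 1 k ≠ c F) ∧
      ((∃ i, c F = F 0 i) ∨ ∃ i, c F = F 1 i)) ∨ (Dom (D + 1) 0 F ∧ c F = c₀ F) := by
    intro F hF
    have := (hex F hF).choose_spec
    simp only [c, dif_pos hF]
    exact this
  have hmem : ∀ F ∈ A, ((∃ i, c F = F 0 i) ∨ ∃ i, c F = F 1 i) := by
    intro F hF
    rcases hc F hF with ⟨_, h⟩ | ⟨hD, h⟩
    · exact h
    · rw [h]
      exact (hc₀ F hD).1
  refine ⟨c, fun F hF G hG hFG h => ?_⟩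
  rcases hc F hF with ⟨hK, _⟩ | ⟨hD, h1⟩
  · rcases hmem G hG with ⟨i, hi⟩ | ⟨i, hi⟩
    · exact (hK G hG hFG).1 i (hi.symm.trans h.symm)
    · exact (hK G hG hFG).2 i (hi.symm.trans h.symm)
  · rcases hc G hG with ⟨hK, _⟩ | ⟨hD', h2⟩
    · rcases hmem F hF with ⟨i, hi⟩ | ⟨i, hi⟩
      · exact (hK F hF hFG.symm).1 i (hi.symm.trans h)
      · exact (hK F hF hFG.symm).2 i (hi.symm.trans h)
    · exact ((hc₀ F hD).2.2 G hD' hFG).1 (h1.symm.trans (h.trans h2))

end Pool.Agent.J6H19.OddBlowup
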